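import Pool.Agent.H13.SSep.Kron

/-! A precompact abelian group `H` all of whose closed subgroups are separable, such that
`ℝ × H` has a closed non-separable subgroup. -/

set_option autoImplicit false

namespace Pool.Agent.H13.SSep

open Set Filter Topology

/-- an uncountable family of reals, linearly independent over the rationals -/
theorem exists_family : ∃ (J : Type) (b : J → ℝ), Uncountable J ∧ LinearIndependent ℚ b := by
  let B := Module.Basis.ofVectorSpace ℚ ℝ
  refine ⟨_, B, ?_, B.linearIndependent⟩
  by_contra hcon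
  rw [not_uncountable_iff] at hcon
  haveI := hcon
  have h1 : Countable ℝ := B.repr.toEquiv.injective.countable
  exact not_countable h1

section

variable {J : Type} (b : J → ℝ)

/-- the homomorphism to the reals -/
noncomputable def phi : (J →₀ ℤ) →+ ℝ :=
  Finsupp.liftAddHom fun j => (AddMonoidHom.mulRight (b j)).comp (Int.castAddHom ℝ)

theorem phi_apply (x : J →₀ ℤ) : phi b x = x.sum fun j n => (n : ℝ) * b j := by
  simp [phi]
  rfl

theorem phi_inj (hb : LinearIndependent ℚ b) : Function.Injective (phi b) := by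
  rw [injective_iff_map_eq_zero]
  intro x hx
  rw [phi_apply] at hx
  rw [linearIndependent_iff] at hb
  have h := hb (x.mapRange (fun n : ℤ => (n : ℚ)) (by simp)) (by
    rw [Finsupp.linearCombination_apply, Finsupp.sum_mapRange_index (by simp)]
    rw [← hx]
    refine Finsupp.sum_congr fun j _ => ?_
    simp [Rat.smul_def])
  ext j
  have := DFunLike.congr_fun h j
  simpa using this

/-- the family of characters -/
noncomputable def chi (j : J) : (J →₀ ℤ) →+ UnitAddCircle :=
  (QuotientAddGroup.mk' (AddSubgroup.zmultiples (1 : ℝ))).comp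
    ((AddMonoidHom.mulRight (b j)).comp (phi b) +
      (AddMonoidHom.mulRight (1 / 2 : ℝ)).comp ((Int.castAddHom ℝ).comp (Finsupp.applyAddHom j)))

theorem chi_apply (j : J) (x : J →₀ ℤ) :
    chi b j x = ((phi b x * b j + (x j : ℝ) * (1 / 2) : ℝ) : UnitAddCircle) := rfl

/-- the diagonal map -/
noncomputable def Phi : (J →₀ ℤ) →+ (J → UnitAddCircle) where
  toFun x j := chi b j x
  map_zero' := by funext j; simp
  map_add' x y := by funext j; simp

theorem half_aux (n : ℤ) : (((2 * ((n : ℝ) * (1 / 2))) : ℝ) : UnitAddCircle) = 0 := by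
  rw [AddCircle.coe_eq_zero_iff]
  exact ⟨n, by simp only [zsmul_one]; ring⟩

/-- if `2 s b j` and `2 s b k` are integers for `j ≠ k` then `s = 0` -/
theorem two_index (hb : LinearIndependent ℚ b) (s : ℝ) (j k : J) (hjk : j ≠ k)
    (hj : ((2 * (s * b j) : ℝ) : UnitAddCircle) = 0)
    (hk : ((2 * (s * b k) : ℝ) : UnitAddCircle) = 0) : s = 0 := by
  rw [AddCircle.coe_eq_zero_iff] at hj hk
  obtain ⟨m, hm⟩ := hj
  obtain ⟨n, hn⟩ := hk
  by_contra hs
  have hm' : (m : ℝ) = 2 * (s * b j) := by simpa using hm
  have hn' : (n : ℝ) = 2 * (s * b k) := by simpa using hn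
  have hrel : (n : ℝ) * b j - (m : ℝ) * b k = 0 := by
    rw [hm', hn']; ring
  have hinj := phi_inj b hb
  have h0 : (Finsupp.single j n - Finsupp.single k m : J →₀ ℤ) = 0 := by
    apply hinj
    rw [map_sub, map_zero]
    rw [phi_apply, phi_apply, Finsupp.sum_single_index (by simp), Finsupp.sum_single_index (by simp)]
    exact hrel
  have h1 := DFunLike.congr_fun h0 j
  have hn0 : n = 0 := by
    simpa [Finsupp.single_apply, hjk.symm] using h1
  have hbk : b k = 0 := by
    rw [hn0] at hn'
    have : s * b k = 0 := by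
      have : (2 : ℝ) * (s * b k) = 0 := by rw [← hn']; simp
      linarith
    rcases mul_eq_zero.1 this with h | h
    · exact absurd h hs
    · exact h
  exact hb.ne_zero k hbk

theorem Phi_inj [Nontrivial J] (hb : LinearIndependent ℚ b) : Function.Injective (Phi b) := by
  rw [injective_iff_map_eq_zero]
  intro x hx
  obtain ⟨j, k, hjk⟩ := exists_pair_ne J
  apply phi_inj b hb
  rw [map_zero]
  have key : ∀ j, ((2 * (phi b x * b j) : ℝ) : UnitAddCircle) = 0 := by
    intro j
    have h1 : chi b j x = 0 := congrFun hx j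
    rw [chi_apply] at h1
    have h2 : (((phi b x * b j + (x j : ℝ) * (1 / 2) + (phi b x * b j + (x j : ℝ) * (1 / 2))) : ℝ) :
        UnitAddCircle) = 0 := by
      rw [AddCircle.coe_add, h1, add_zero]
    have h3 : (((phi b x * b j + (x j : ℝ) * (1 / 2) + (phi b x * b j + (x j : ℝ) * (1 / 2))) : ℝ) :
        UnitAddCircle) = ((2 * (phi b x * b j) : ℝ) : UnitAddCircle) +
          ((2 * ((x j : ℝ) * (1 / 2)) : ℝ) : UnitAddCircle) := by
      rw [← AddCircle.coe_add]
      congr 1
      ring
    rw [h3, half_aux, add_zero] at h2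
    exact h2
  exact two_index b hb _ j k hjk (key j) (key k)

/-- finite families from `b` satisfy the hypothesis of Kronecker's theorem -/
theorem kron_hyp (hb : LinearIndependent ℚ b) (F : Finset J) (k : F → ℤ)
    (hk : ∑ i, (k i : ℝ) * b i = 0) : k = 0 := by
  have h1 : LinearIndependent ℚ (fun i : F => b i) :=
    hb.comp _ Subtype.val_injective
  rw [Fintype.linearIndependent_iff] at h1
  funext i
  have h2 := h1 (fun i => (k i : ℚ)) (by
    rw [← hk]
    refine Finset.sum_congr rfl fun i _ => ?_
    simp [Rat.smul_def]) i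
  simpa using h2

/-- the doubles of a set with dense image in the reals are dense -/
theorem dense_double (hb : LinearIndependent ℚ b) (L : Set (J →₀ ℤ))
    (hL : Dense ((phi b) '' L)) (p : J → UnitAddCircle) :
    p ∈ closure ((Phi b) '' ((fun y => y + y) '' L)) := by
  rw [mem_closure_iff]
  intro O hO hpO
  obtain ⟨F, u, hu, hsub⟩ := isOpen_pi_iff.1 hO p hpO
  -- Kronecker on the finite set F
  have hK := kron (fun i : F => b i) (kron_hyp b hb F)
  let q : UnitAddTorus F := fun i => p i
  let W : Set (UnitAddTorus F) := Set.pi Set.univ fun i : F => u i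
  have hW : IsOpen W := isOpen_set_pi Set.finite_univ fun i _ => (hu i i.2).1
  have hqW : q ∈ W := fun i _ => (hu i i.2).2
  obtain ⟨_, hrW, r, rfl⟩ := hK.inter_open_nonempty W hW ⟨q, hqW⟩
  have hopen : IsOpen ((fun t : ℝ => gam (fun i : F => b i) (t + t)) ⁻¹' W) :=
    hW.preimage ((gam_cont _).comp (continuous_id.add continuous_id))
  obtain ⟨_, hyW, y, hyL, rfl⟩ := hL.inter_open_nonempty _ hopen ⟨r / 2, by
    show gam _ (r / 2 + r / 2) ∈ W
    rw [add_halves]
    exact hrW⟩
  refine ⟨Phi b (y + y), hsub ?_, ⟨y + y, ⟨y, hyL, rfl⟩, rfl⟩⟩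
  intro i hi
  have h1 := hyW ⟨i, hi⟩ trivial
  have e : Phi b (y + y) i = gam (fun i : F => b i) (phi b y + phi b y) ⟨i, hi⟩ := by
    show chi b i (y + y) = _
    rw [chi_apply]
    simp only [gam]
    have : (phi b (y + y) * b i + (((y + y) i : ℤ) : ℝ) * (1 / 2) : ℝ) =
        (phi b y + phi b y) * b i + 2 * ((y i : ℝ) * (1 / 2)) := by
      rw [map_add, Finsupp.add_apply]
      push_cast
      ring
    rw [this, AddCircle.coe_add, half_aux, add_zero]
  rw [e]
  exact h1

end

theorem core : ∃ (H : Type) (_ : AddCommGroup H) (_ : TopologicalSpace H)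
    (_ : IsTopologicalAddGroup H) (_ : T2Space H),
    (∀ K : AddSubgroup H, IsClosed (K : Set H) → TopologicalSpace.SeparableSpace K) ∧
    ∃ C : AddSubgroup (ℝ × H), IsClosed (C : Set (ℝ × H)) ∧
      ¬ TopologicalSpace.SeparableSpace C := by
  obtain ⟨J, b, hJ, hb⟩ := exists_family
  haveI : Infinite J := inferInstance
  haveI : Nontrivial J := inferInstance
  let tH : TopologicalSpace (J →₀ ℤ) := TopologicalSpace.induced (Phi b) inferInstance
  have hind : IsInducing (Phi b) := ⟨rfl⟩
  have hgrp : IsTopologicalAddGroup (J →₀ ℤ) := topologicalAddGroup_induced (Phi b)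
  have hcont : Continuous (Phi b) := hind.continuous
  have hchi : ∀ j, Continuous (chi b j) := fun j => (continuous_apply j).comp hcont
  have hT2 : T2Space (J →₀ ℤ) := T2Space.of_injective_continuous (Phi_inj b hb) hcont
  refine ⟨J →₀ ℤ, inferInstance, tH, hgrp, hT2, ?_, ?_⟩
  · intro K _
    rcases (K.map (phi b)).dense_or_cyclic with hd | ⟨a, ha⟩
    · -- dense image
      have hd' : Dense ((phi b) '' (K : Set (J →₀ ℤ))) := hd
      obtain ⟨c, hcs, hcc, hcd⟩ :=
        (TopologicalSpace.IsSeparable.of_separableSpace ((phi b) '' (K : Set (J →₀ ℤ)))).exists_countable_dense_subset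
      obtain ⟨L, hLK, hLc, hLi⟩ : ∃ L : Set (J →₀ ℤ), L ⊆ K ∧ L.Countable ∧ (phi b) '' L = c := by
        choose g hg1 hg2 using hcs
        haveI := hcc.to_subtype
        refine ⟨range fun z : c => g z.2, ?_, countable_range _, ?_⟩
        · rintro _ ⟨z, rfl⟩
          exact hg1 z.2
        · ext y
          constructor
          · rintro ⟨_, ⟨z, rfl⟩, rfl⟩
            show phi b (g z.2) ∈ c
            rw [hg2 z.2]
            exact z.2
          · intro hy
            exact ⟨g hy, ⟨⟨y, hy⟩, rfl⟩, hg2 hy⟩
      have hLd : Dense ((phi b) '' L) := by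
        rw [hLi]
        exact fun x => closure_minimal hcd isClosed_closure (hd' x)
      let L2 : Set (J →₀ ℤ) := (fun y => y + y) '' L
      have hL2K : L2 ⊆ K := by
        rintro _ ⟨y, hy, rfl⟩
        exact K.add_mem (hLK hy) (hLK hy)
      have hL2d : ∀ x : J →₀ ℤ, x ∈ closure L2 := by
        intro x
        rw [hind.closure_eq_preimage_closure_image]
        exact dense_double b hb L hLd _
      refine ⟨(Subtype.val : K → (J →₀ ℤ)) ⁻¹' L2, ?_, ?_⟩
      · exact (hLc.image _).preimage Subtype.val_injective
      · intro x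
        rw [Topology.IsEmbedding.subtypeVal.isInducing.closure_eq_preimage_closure_image]
        have himg : (Subtype.val '' ((Subtype.val : K → (J →₀ ℤ)) ⁻¹' L2)) = L2 := by
          ext y
          constructor
          · rintro ⟨z, hz, rfl⟩
            exact hz
          · intro hy
            exact ⟨⟨y, hL2K hy⟩, hy, rfl⟩
        show x.1 ∈ closure (Subtype.val '' ((Subtype.val : K → (J →₀ ℤ)) ⁻¹' L2))
        rw [himg]
        exact hL2d _
    · -- cyclic image
      have hc : Countable K := by
        have h1 : (K.map (phi b) : Set ℝ).Countable := by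
          rw [ha, ← AddSubgroup.zmultiples_eq_closure]
          have : (AddSubgroup.zmultiples a : Set ℝ) = range fun n : ℤ => n • a := by
            ext z; exact AddSubgroup.mem_zmultiples_iff
          rw [this]
          exact countable_range _
        have h2 : ((phi b) '' (K : Set (J →₀ ℤ))).Countable := h1
        exact (countable_of_injective_of_countable_image
          ((phi_inj b hb).injOn) h2).to_subtype
      infer_instance
  · -- the graph
    let C : AddSubgroup (ℝ × (J →₀ ℤ)) := ((phi b).prod (AddMonoidHom.id (J →₀ ℤ))).range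
    have hmem : ∀ z : ℝ × (J →₀ ℤ), z ∈ C ↔ z.1 = phi b z.2 := by
      rintro ⟨r, x⟩
      constructor
      · rintro ⟨y, hy⟩
        have h1 := congrArg Prod.fst hy
        have h2 := congrArg Prod.snd hy
        simp at h1 h2
        show r = phi b x
        rw [← h1, ← h2]
      · intro h
        exact ⟨x, by simp at h; simp [h]⟩
    -- the functions ψ_j
    let ψ : J → ℝ × (J →₀ ℤ) → UnitAddCircle := fun j z => ((z.1 * b j : ℝ) : UnitAddCircle) - chi b j z.2
    have hψc : ∀ j, Continuous (ψ j) := fun j =>
      ((AddCircle.continuous_mk' (1 : ℝ)).comp (continuous_fst.mul continuous_const)).sub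
        ((hchi j).comp continuous_snd)
    have hψC : ∀ j (x : J →₀ ℤ), ψ j (phi b x, x) = -(((x j : ℝ) * (1 / 2) : ℝ) : UnitAddCircle) := by
      intro j x
      show ((phi b x * b j : ℝ) : UnitAddCircle) - chi b j x = _
      rw [chi_apply, AddCircle.coe_add]
      abel
    refine ⟨C, ?_, ?_⟩
    · -- closed
      have e : (C : Set (ℝ × (J →₀ ℤ))) = ⋂ j, {z | ψ j z + ψ j z = 0} := by
        ext z
        rw [mem_iInter]
        constructor
        · intro hz j
          have hz' : z.1 = phi b z.2 := (hmem z).1 hz
          have : z = (phi b z.2, z.2) := Prod.ext hz' rfl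
          show ψ j z + ψ j z = 0
          rw [this, hψC, ← neg_add, ← AddCircle.coe_add, neg_eq_zero]
          have := half_aux (z.2 j)
          rwa [two_mul] at this
        · intro hz
          have key : ∀ j, ((2 * ((z.1 - phi b z.2) * b j) : ℝ) : UnitAddCircle) = 0 := by
            intro j
            have h1 : ψ j z + ψ j z = 0 := hz j
            have h2 : ψ j z = (((z.1 - phi b z.2) * b j : ℝ) : UnitAddCircle) -
                ((((z.2 j : ℤ) : ℝ) * (1 / 2) : ℝ) : UnitAddCircle) := by
              show ((z.1 * b j : ℝ) : UnitAddCircle) - chi b j z.2 = _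
              rw [chi_apply, ← AddCircle.coe_sub, ← AddCircle.coe_sub]
              congr 1
              ring
            rw [h2] at h1
            have h3 := half_aux (z.2 j)
            rw [two_mul, AddCircle.coe_add] at h3
            rw [two_mul, AddCircle.coe_add]
            have h4 : (((z.1 - phi b z.2) * b j : ℝ) : UnitAddCircle) -
                ((((z.2 j : ℤ) : ℝ) * (1 / 2) : ℝ) : UnitAddCircle) +
                ((((z.1 - phi b z.2) * b j : ℝ) : UnitAddCircle) -
                ((((z.2 j : ℤ) : ℝ) * (1 / 2) : ℝ) : UnitAddCircle)) =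
                ((((z.1 - phi b z.2) * b j : ℝ) : UnitAddCircle) +
                  (((z.1 - phi b z.2) * b j : ℝ) : UnitAddCircle)) -
                (((((z.2 j : ℤ) : ℝ) * (1 / 2) : ℝ) : UnitAddCircle) +
                  ((((z.2 j : ℤ) : ℝ) * (1 / 2) : ℝ) : UnitAddCircle)) := by abel
            rw [h4, h3, sub_zero] at h1
            exact h1
          obtain ⟨j, k, hjk⟩ := exists_pair_ne J
          have := two_index b hb _ j k hjk (key j) (key k)
          exact (hmem z).2 (sub_eq_zero.1 this)
      rw [e]
      exact isClosed_iInter fun j => isClosed_eq ((hψc j).add (hψc j)) continuous_const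
    · -- not separable
      intro hsep
      obtain ⟨Q, hQc, hQd⟩ := hsep.exists_countable_dense
      let S : Set J := ⋃ z ∈ Q, ((z : ℝ × (J →₀ ℤ)).2.support : Set J)
      have hS : S.Countable := hQc.biUnion fun z _ => Finset.countable_toSet _
      obtain ⟨j, hj⟩ : ∃ j, j ∉ S := by
        by_contra hcon
        push Not at hcon
        have : (univ : Set J).Countable := hS.mono fun j _ => hcon j
        rw [countable_univ_iff] at this
        exact not_countable this
      have hopen : IsOpen {z : C | ψ j z ≠ 0} :=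
        isOpen_ne_fun ((hψc j).comp continuous_subtype_val) continuous_const
      have hne : ({z : C | ψ j z ≠ 0}).Nonempty := by
        refine ⟨⟨(phi b (Finsupp.single j 1), Finsupp.single j 1), (hmem _).2 rfl⟩, ?_⟩
        show ψ j (phi b (Finsupp.single j 1), Finsupp.single j 1) ≠ 0
        rw [hψC, neg_ne_zero]
        intro h
        rw [AddCircle.coe_eq_zero_iff] at h
        obtain ⟨n, hn⟩ := h
        have hn' : (n : ℝ) = 1 / 2 := by simpa using hn
        have h2 : ((2 * n : ℤ) : ℝ) = ((1 : ℤ) : ℝ) := by push_cast; linarith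
        have h3 : 2 * n = 1 := by exact_mod_cast h2
        omega
      obtain ⟨z, hz, hzQ⟩ := hQd.inter_open_nonempty _ hopen hne
      apply hz
      have hz1 : (z : ℝ × (J →₀ ℤ)).1 = phi b (z : ℝ × (J →₀ ℤ)).2 := (hmem _).1 z.2
      have hz2 : (z : ℝ × (J →₀ ℤ)) = (phi b (z : ℝ × (J →₀ ℤ)).2, (z : ℝ × (J →₀ ℤ)).2) :=
        Prod.ext hz1 rfl
      have hz3 : (z : ℝ × (J →₀ ℤ)).2 j = 0 := by
        by_contra hne0
        apply hj
        exact mem_biUnion hzQ (Finsupp.mem_support_iff.2 hne0)
      rw [hz2, hψC, hz3]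
      simp

end Pool.Agent.H13.SSep
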