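import Mathlib

/-! Kronecker's theorem (continuous version): if finitely many reals `v i` are linearly
independent over the integers, the one-parameter group `r ↦ (r v i mod 1)` is dense in the torus. -/

set_option autoImplicit false

namespace Pool.Agent.H13.SSep

open Set Filter Topology MeasureTheory

variable {F : Type} [Fintype F]

/-- the one parameter group -/
noncomputable def gam (v : F → ℝ) (r : ℝ) : UnitAddTorus F := fun i => ((r * v i : ℝ) : UnitAddCircle)

theorem gam_cont (v : F → ℝ) : Continuous (gam v) := by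
  unfold gam
  refine continuous_pi fun i => ?_
  exact (AddCircle.continuous_mk' (1 : ℝ)).comp (continuous_id.mul continuous_const)

theorem gam_add (v : F → ℝ) (r s : ℝ) : gam v (r + s) = gam v r + gam v s := by
  funext i
  simp only [gam, Pi.add_apply]
  rw [add_mul]
  rfl

theorem mFourier_add' (n : F → ℤ) (x y : UnitAddTorus F) :
    UnitAddTorus.mFourier n (x + y) = UnitAddTorus.mFourier n x * UnitAddTorus.mFourier n y := by
  simp only [UnitAddTorus.mFourier, ContinuousMap.coe_mk, Pi.add_apply, ← Finset.prod_mul_distrib]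
  refine Finset.prod_congr rfl fun i _ => ?_
  rw [fourier_apply, fourier_apply, fourier_apply, smul_add, AddCircle.toCircle_add]
  simp

theorem mFourier_gam (n : F → ℤ) (v : F → ℝ) (r : ℝ) :
    UnitAddTorus.mFourier n (gam v r) =
      Complex.exp ((2 * Real.pi * Complex.I * (∑ i, (n i : ℂ) * (v i : ℂ))) * (r : ℂ)) := by
  simp only [UnitAddTorus.mFourier, ContinuousMap.coe_mk, gam]
  simp only [fourier_coe_apply]
  rw [← Complex.exp_sum]
  congr 1
  rw [Finset.mul_sum, Finset.sum_mul]
  refine Finset.sum_congr rfl fun i _ => ?_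
  push_cast
  ring

theorem mean_exp (c : ℂ) (hc : c ≠ 0) (hb : ∀ R : ℝ, ‖Complex.exp (c * R)‖ ≤ 1) :
    Tendsto (fun R : ℝ => ((1 / R : ℝ) : ℂ) * ∫ r in (0 : ℝ)..R, Complex.exp (c * r))
      atTop (𝓝 0) := by
  have h1 : Tendsto (fun R : ℝ => (1 / R) * (2 / ‖c‖)) atTop (𝓝 0) := by
    have := (tendsto_const_nhds (x := (1 : ℝ))).div_atTop (tendsto_id (α := ℝ))
    simpa using this.mul_const (2 / ‖c‖)
  refine squeeze_zero_norm' ?_ h1
  filter_upwards [eventually_gt_atTop (0 : ℝ)] with R hR
  rw [integral_exp_mul_complex hc, norm_mul, norm_div]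
  rw [Complex.norm_real, Real.norm_eq_abs, abs_of_pos (by positivity)]
  refine mul_le_mul_of_nonneg_left ?_ (by positivity)
  refine div_le_div_of_nonneg_right ?_ (norm_nonneg _)
  refine (norm_sub_le _ _).trans ?_
  have h2 := hb R
  have h3 := hb 0
  linarith

/-- mean along the flow -/
noncomputable def mean (v : F → ℝ) (P : UnitAddTorus F → ℂ) (x : UnitAddTorus F) (R : ℝ) : ℂ :=
  ((1 / R : ℝ) : ℂ) * ∫ r in (0 : ℝ)..R, P (x + gam v r)

theorem cont_aux (v : F → ℝ) (P : C(UnitAddTorus F, ℂ)) (x : UnitAddTorus F) :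
    Continuous fun r : ℝ => P (x + gam v r) :=
  P.continuous.comp (continuous_const.add (gam_cont v))

theorem mean_tendsto (v : F → ℝ) (hv : ∀ k : F → ℤ, ∑ i, (k i : ℝ) * v i = 0 → k = 0)
    (P : C(UnitAddTorus F, ℂ))
    (hP : P ∈ Submodule.span ℂ (range (UnitAddTorus.mFourier (d := F)))) :
    ∃ a : ℂ, ∀ x, Tendsto (mean v P x) atTop (𝓝 a) := by
  induction hP using Submodule.span_induction with
  | mem P hP =>
    obtain ⟨n, rfl⟩ := hP
    by_cases hn : n = 0
    · subst hn
      refine ⟨1, fun x => ?_⟩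
      refine tendsto_const_nhds.congr' ?_
      filter_upwards [eventually_gt_atTop (0 : ℝ)] with R hR
      unfold mean
      simp only [UnitAddTorus.mFourier_zero, ContinuousMap.one_apply]
      rw [intervalIntegral.integral_const]
      simp only [sub_zero]
      rw [Complex.real_smul, mul_one, ← Complex.ofReal_mul, one_div_mul_cancel hR.ne']
      simp
    · refine ⟨0, fun x => ?_⟩
      have hs : (∑ i, (n i : ℂ) * (v i : ℂ)) ≠ 0 := by
        intro h
        apply hn
        apply hv
        have : ((∑ i, (n i : ℝ) * v i : ℝ) : ℂ) = 0 := by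
          push_cast
          exact h
        exact_mod_cast this
      have hc : (2 * Real.pi * Complex.I * (∑ i, (n i : ℂ) * (v i : ℂ))) ≠ 0 :=
        mul_ne_zero Complex.two_pi_I_ne_zero hs
      have hb : ∀ R : ℝ, ‖Complex.exp ((2 * Real.pi * Complex.I *
          (∑ i, (n i : ℂ) * (v i : ℂ))) * R)‖ ≤ 1 := by
        intro R
        rw [← mFourier_gam]
        exact ((UnitAddTorus.mFourier n).norm_coe_le_norm _).trans
          (le_of_eq UnitAddTorus.mFourier_norm)
      have h1 := (mean_exp _ hc hb).const_mul (UnitAddTorus.mFourier n x)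
      rw [mul_zero] at h1
      refine h1.congr fun R => ?_
      unfold mean
      simp only [mFourier_add', mFourier_gam]
      rw [intervalIntegral.integral_const_mul]
      ring
  | zero =>
    refine ⟨0, fun x => ?_⟩
    refine tendsto_const_nhds.congr fun R => ?_
    simp [mean]
  | add P Q _ _ hP hQ =>
    obtain ⟨a, ha⟩ := hP
    obtain ⟨b, hb⟩ := hQ
    refine ⟨a + b, fun x => ?_⟩
    refine ((ha x).add (hb x)).congr fun R => ?_
    unfold mean
    rw [← mul_add, ← intervalIntegral.integral_add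
      ((cont_aux v P x).intervalIntegrable _ _) ((cont_aux v Q x).intervalIntegrable _ _)]
    rfl
  | smul c P _ hP =>
    obtain ⟨a, ha⟩ := hP
    refine ⟨c * a, fun x => ?_⟩
    refine ((ha x).const_mul c).congr fun R => ?_
    unfold mean
    simp only [ContinuousMap.smul_apply, smul_eq_mul]
    rw [intervalIntegral.integral_const_mul]
    ring

/-- Kronecker's theorem -/
theorem kron (v : F → ℝ) (hv : ∀ k : F → ℤ, ∑ i, (k i : ℝ) * v i = 0 → k = 0) :
    Dense (range (gam v)) := by
  let γ : ℝ →+ UnitAddTorus F :=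
    { toFun := gam v
      map_zero' := by funext i; simp [gam]
      map_add' := gam_add v }
  let A : AddSubgroup (UnitAddTorus F) := γ.range.topologicalClosure
  have hAcl : IsClosed (A : Set (UnitAddTorus F)) := AddSubgroup.isClosed_topologicalClosure _
  have hγA : ∀ r, gam v r ∈ A := fun r => subset_closure ⟨r, rfl⟩
  intro p
  by_contra hp
  have hpA : p ∉ A := hp
  have hBcl : IsClosed ((fun x => -p + x) ⁻¹' (A : Set (UnitAddTorus F))) :=
    hAcl.preimage (continuous_const.add continuous_id)
  have hdisj : Disjoint (A : Set (UnitAddTorus F)) ((fun x => -p + x) ⁻¹' (A : Set _)) := by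
    rw [Set.disjoint_left]
    intro x hx hx'
    apply hpA
    have hx2 : -p + x ∈ A := hx'
    have : x - (-p + x) ∈ A := A.sub_mem hx hx2
    have e : x - (-p + x) = p := by abel
    rwa [e] at this
  obtain ⟨f, hf0, hf1, -⟩ := exists_continuous_zero_one_of_isClosed hAcl hBcl hdisj
  let fc : C(UnitAddTorus F, ℂ) := ⟨fun x => (f x : ℂ), Complex.continuous_ofReal.comp f.continuous⟩
  have hmem : fc ∈ closure ((Submodule.span ℂ (range (UnitAddTorus.mFourier (d := F))) :
      Submodule ℂ C(UnitAddTorus F, ℂ)) : Set C(UnitAddTorus F, ℂ)) := by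
    have h := UnitAddTorus.span_mFourier_closure_eq_top (d := F)
    have h2 : fc ∈ (Submodule.span ℂ (range (UnitAddTorus.mFourier (d := F)))).topologicalClosure := by
      rw [h]; trivial
    exact h2
  obtain ⟨P, hPs, hPd⟩ := Metric.mem_closure_iff.1 hmem (1 / 4) (by norm_num)
  obtain ⟨a, ha⟩ := mean_tendsto v hv P hPs
  have hd : ∀ x, ‖fc x - P x‖ ≤ 1 / 4 := by
    intro x
    have := ContinuousMap.dist_apply_le_dist (f := fc) (g := P) x
    rw [dist_eq_norm] at this
    exact this.trans hPd.le
  have key : ∀ (x : UnitAddTorus F) (c : ℂ), (∀ r : ℝ, fc (x + gam v r) = c) → ‖a - c‖ ≤ 1 / 4 := by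
    intro x c hxc
    refine le_of_tendsto ((ha x).sub_const c).norm ?_
    filter_upwards [eventually_gt_atTop (0 : ℝ)] with R hR
    have e : mean v P x R - c =
        ((1 / R : ℝ) : ℂ) * ∫ r in (0 : ℝ)..R, (P (x + gam v r) - c) := by
      unfold mean
      rw [intervalIntegral.integral_sub ((cont_aux v P x).intervalIntegrable _ _)
        (continuous_const.intervalIntegrable _ _), intervalIntegral.integral_const, mul_sub]
      congr 1
      rw [sub_zero, Complex.real_smul, ← mul_assoc, ← Complex.ofReal_mul,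
        one_div_mul_cancel hR.ne']
      simp
    rw [e, norm_mul, Complex.norm_real, Real.norm_eq_abs, abs_of_pos (by positivity)]
    have h3 : ‖∫ r in (0 : ℝ)..R, (P (x + gam v r) - c)‖ ≤ (1 / 4) * |R - 0| := by
      refine intervalIntegral.norm_integral_le_of_norm_le_const fun r _ => ?_
      rw [← hxc r, norm_sub_rev]
      exact hd _
    rw [sub_zero, abs_of_pos hR] at h3
    calc 1 / R * ‖∫ r in (0 : ℝ)..R, (P (x + gam v r) - c)‖ ≤ 1 / R * ((1 / 4) * R) :=
          mul_le_mul_of_nonneg_left h3 (by positivity)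
      _ = 1 / 4 := by field_simp
  have k0 : ‖a - 0‖ ≤ 1 / 4 := by
    refine key 0 0 fun r => ?_
    rw [zero_add]
    show ((f (gam v r) : ℝ) : ℂ) = 0
    rw [hf0 (hγA r)]
    simp
  have k1 : ‖a - 1‖ ≤ 1 / 4 := by
    refine key p 1 fun r => ?_
    show ((f (p + gam v r) : ℝ) : ℂ) = 1
    have hm : p + gam v r ∈ (fun x => -p + x) ⁻¹' (A : Set (UnitAddTorus F)) := by
      show -p + (p + gam v r) ∈ A
      rw [neg_add_cancel_left]
      exact hγA r
    rw [hf1 hm]
    simp
  have : (1 : ℝ) ≤ 1 / 2 := by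
    calc (1 : ℝ) = ‖(1 : ℂ)‖ := by simp
      _ = ‖(a - 0) - (a - 1)‖ := by congr 1; ring
      _ ≤ ‖a - 0‖ + ‖a - 1‖ := norm_sub_le _ _
      _ ≤ 1 / 2 := by linarith
  norm_num at this

end Pool.Agent.H13.SSep
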